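import Pool.Agent.Q178.PG.Classes

/-!
# The moduli spaces of planar graphs are not homotopy equivalent to unordered configuration spaces
-/

namespace Pool.Agent.Results.MP_c05aef_gt.NotHomotopyEquivalent

open Q178.PG

/-- For every `n ≥ 1` the space `𝒩_n(ℝ²)` is not homotopy equivalent to `UConf_n(ℝ²)`. For `n ≥ 2`
this is also true of the subspace of the classes whose image has no tree among its connected
components. -/
theorem result (n : ℕ) (hn : 1 ≤ n) :
    ¬ Nonempty (ContinuousMap.HomotopyEquiv (Nn n) (UConf n)) ∧
      (2 ≤ n → ¬ Nonempty (ContinuousMap.HomotopyEquiv (NnCyclic n) (UConf n))) :=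
  main n hn

end Pool.Agent.Results.MP_c05aef_gt.NotHomotopyEquivalent
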